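import Mathlib

open Set Filter Topology Real

namespace Pool.Agent.Results.MP_ca1982_an.Yes

def M : ℕ → ℕ
  | 0 => 9
  | k + 1 => 9 ^ (k + 1) * M k

theorem M_odd (k : ℕ) : Odd (M k) := by
  induction k with
  | zero => decide
  | succ k ih => exact (Odd.pow (by decide)).mul ih

theorem M_ge (k : ℕ) : (9 : ℝ) * 2 ^ k ≤ M k := by
  induction k with
  | zero => simp [M]
  | succ k ih =>
    have h : (2 : ℝ) ≤ 9 ^ (k + 1) := le_trans (by norm_num) (le_self_pow₀ (by norm_num) k.succ_ne_zero)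
    have h2 : (0 : ℝ) < 2 ^ k := by positivity
    simp only [M, Nat.cast_mul, Nat.cast_pow, Nat.cast_ofNat, pow_succ (2 : ℝ)]
    nlinarith

theorem M_pos (k : ℕ) : (0 : ℝ) < M k := lt_of_lt_of_le (by positivity) (M_ge k)

noncomputable def dl (k : ℕ) : ℝ := 4 / M k

theorem dl_pos (k : ℕ) : 0 < dl k := div_pos (by norm_num) (M_pos k)

theorem dl_le (k : ℕ) : dl k ≤ (1 / 2) ^ (k + 1) := by
  have h := M_ge k
  have h2 : (0 : ℝ) < 2 ^ k := by positivity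
  rw [dl, one_div_pow, div_le_div_iff₀ (M_pos k) (by positivity), pow_succ]
  nlinarith

theorem dl_succ (k : ℕ) : dl (k + 1) = dl k / 9 ^ (k + 1) := by
  simp only [dl, M, Nat.cast_mul, Nat.cast_pow, Nat.cast_ofNat]
  rw [div_div, mul_comm]

theorem dl_half (k : ℕ) : dl (k + 1) ≤ dl k / 2 := by
  rw [dl_succ]
  exact div_le_div_of_nonneg_left (dl_pos k).le (by norm_num)
    (le_trans (by norm_num) (le_self_pow₀ (by norm_num) k.succ_ne_zero))

theorem dl_anti : Antitone dl :=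
  antitone_nat_of_succ_le fun k => by linarith [dl_half k, dl_pos k]

noncomputable def ph (k : ℕ) (x : ℝ × ℝ) : ℝ := M k * (4 ^ k * x.1 + x.2)

def C (k : ℕ) : Set (ℝ × ℝ) := {x | |sin (π * ph k x)| ≤ 4 * (1 / 2) ^ k}

def N (j : ℕ) : Set (ℝ × ℝ) :=
  ({x | x.1 ≤ dl j} ∪ {x | 1 - dl j ≤ x.1}) ∩ ({x | x.2 ≤ dl j} ∪ {x | 1 - dl j ≤ x.2})

def K : Set (ℝ × ℝ) := Icc 0 1 ×ˢ Icc 0 1 ∩ ⋂ j, ⋂ k, ⋂ _ : j < k, (C j ∪ C k ∪ N j)

theorem closed_C (k : ℕ) : IsClosed (C k) :=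
  isClosed_le (by unfold ph; fun_prop) continuous_const

theorem closed_N (j : ℕ) : IsClosed (N j) :=
  ((isClosed_le continuous_fst continuous_const).union
    (isClosed_le continuous_const continuous_fst)).inter
  ((isClosed_le continuous_snd continuous_const).union
    (isClosed_le continuous_const continuous_snd))

theorem compact_K : IsCompact K :=
  (isCompact_Icc.prod isCompact_Icc).inter_right (isClosed_iInter fun j => isClosed_iInter fun k =>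
    isClosed_iInter fun _ => ((closed_C j).union (closed_C k)).union (closed_N j))

theorem sin_add_le (a b : ℝ) : |sin (a + b)| ≤ |sin a| + |sin b| := by
  rw [sin_add]
  refine (abs_add_le _ _).trans (add_le_add ?_ ?_)
  · rw [abs_mul]; exact mul_le_of_le_one_right (abs_nonneg _) (abs_cos_le_one _)
  · rw [abs_mul]; exact mul_le_of_le_one_left (abs_nonneg _) (abs_cos_le_one _)

def H : AddSubgroup (ℝ × ℝ) where
  carrier := {x | Tendsto (fun k => |sin (π * ph k x)|) atTop (𝓝 0)}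
  zero_mem' := by simp [ph]
  add_mem' := by
    intro x y hx hy
    have := Tendsto.add hx hy
    rw [add_zero] at this
    refine squeeze_zero (fun _ => abs_nonneg _) (fun k => ?_) this
    have e : π * ph k (x + y) = π * ph k x + π * ph k y := by simp only [ph, Prod.fst_add, Prod.snd_add]; ring
    rw [e]; exact sin_add_le _ _
  neg_mem' := by
    intro x hx
    have e : ∀ k, π * ph k (-x) = -(π * ph k x) := fun k => by
      simp only [ph, Prod.fst_neg, Prod.snd_neg]; ring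
    simpa only [mem_setOf_eq, e, sin_neg, abs_neg] using hx

theorem H_int : interior (H : Set (ℝ × ℝ)) = ∅ := by
  by_contra hne
  obtain ⟨x, hx⟩ := nonempty_iff_ne_empty.2 hne
  have ho : IsOpen (H : Set (ℝ × ℝ)) := H.isOpen_of_mem_nhds (mem_interior_iff_mem_nhds.1 hx)
  have hu : (H : Set (ℝ × ℝ)) = univ :=
    IsClopen.eq_univ ⟨H.isClosed_of_isOpen ho, ho⟩ ⟨0, H.zero_mem⟩
  have h : ((0, 1 / 2) : ℝ × ℝ) ∈ (H : Set (ℝ × ℝ)) := hu ▸ mem_univ _
  have e : ∀ k, |sin (π * ph k (0, 1 / 2))| = 1 := by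
    intro k
    obtain ⟨q, hq⟩ := M_odd k
    have hc : cos (π * ph k (0, 1 / 2)) = 0 := by
      rw [cos_eq_zero_iff]
      refine ⟨q, ?_⟩
      simp only [ph, hq]
      push_cast
      ring
    have := sin_sq_add_cos_sq (π * ph k (0, 1 / 2))
    rw [hc] at this
    rw [← sq_eq_sq₀ (abs_nonneg _) zero_le_one, sq_abs]
    linarith
  have h' : Tendsto (fun k => |sin (π * ph k (0, 1 / 2))|) atTop (𝓝 0) := h
  simp only [e] at h'
  exact one_ne_zero (tendsto_nhds_unique tendsto_const_nhds h')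

theorem corner {a : ℝ} (h0 : 0 ≤ a) (h1 : a ≤ 1) (h : ∀ j, a ≤ dl j ∨ 1 - dl j ≤ a) :
    a = 0 ∨ a = 1 := by
  by_contra hc
  push Not at hc
  have hp : 0 < min a (1 - a) := lt_min (lt_of_le_of_ne h0 hc.1.symm) (sub_pos.2 (lt_of_le_of_ne h1 hc.2))
  obtain ⟨j, hj⟩ := exists_pow_lt_of_lt_one hp (show (1 / 2 : ℝ) < 1 by norm_num)
  have h2 := dl_le j
  have h3 : (0 : ℝ) < (1 / 2) ^ j := by positivity
  rw [pow_succ] at h2
  rcases h j with h | h <;> linarith [min_le_left a (1 - a), min_le_right a (1 - a)]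

theorem K_sub : K ⊆ H := by
  rintro x ⟨⟨⟨a0, a1⟩, b0, b1⟩, hx⟩
  simp only [mem_iInter] at hx
  show Tendsto (fun k => |sin (π * ph k x)|) atTop (𝓝 0)
  by_cases hN : ∀ j, x ∈ N j
  · have e : ∀ k, |sin (π * ph k x)| = 0 := by
      intro k
      rw [abs_eq_zero, sin_eq_zero_iff]
      rcases corner a0 a1 (fun j => (hN j).1) with h | h <;>
        rcases corner b0 b1 (fun j => (hN j).2) with h' | h'
      · exact ⟨0, by simp [ph, h, h']⟩
      · exact ⟨M k, by simp [ph, h, h', mul_comm]⟩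
      · exact ⟨M k * 4 ^ k, by simp [ph, h, h', mul_comm]⟩
      · exact ⟨M k * (4 ^ k + 1), by simp [ph, h, h', mul_comm]⟩
    simp only [e]
    exact tendsto_const_nhds
  · push Not at hN
    obtain ⟨j0, hj0⟩ := hN
    have hn : ∀ j, j0 ≤ j → x ∉ N j := by
      intro j hj hm
      have := dl_anti hj
      refine hj0 ⟨hm.1.imp (fun h => ?_) (fun h => ?_), hm.2.imp (fun h => ?_) (fun h => ?_)⟩ <;>
        simp only [mem_setOf_eq] at h ⊢ <;> linarith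
    have hev : ∀ᶠ k in atTop, x ∈ C k := by
      by_cases ha : ∀ j, j0 ≤ j → x ∈ C j
      · exact eventually_atTop.2 ⟨j0, ha⟩
      · push Not at ha
        obtain ⟨j, hj, hjC⟩ := ha
        refine eventually_atTop.2 ⟨j + 1, fun k hk => ?_⟩
        rcases hx j k hk with (h | h) | h
        · exact absurd h hjC
        · exact h
        · exact absurd h (hn j hj)
    have ht : Tendsto (fun k : ℕ => 4 * (1 / 2 : ℝ) ^ k) atTop (𝓝 0) := by
      simpa using (tendsto_pow_atTop_nhds_zero_of_lt_one (r := (1 / 2 : ℝ)) (by norm_num)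
        (by norm_num)).const_mul 4
    exact squeeze_zero' (Eventually.of_forall fun _ => abs_nonneg _) hev ht

theorem hit (a c t : ℝ) (hc : c ≠ 0) : ∃ u, 0 ≤ u ∧ u * |c| ≤ 1 ∧ ∃ n : ℤ, a + (t + u) * c = n := by
  rcases hc.lt_or_gt with h | h
  · refine ⟨(⌊a + t * c⌋ - (a + t * c)) / c, div_nonneg_of_nonpos (sub_nonpos.2 (Int.floor_le _)) h.le,
      ?_, ⌊a + t * c⌋, by field_simp; ring⟩
    rw [abs_of_neg h, mul_neg, div_mul_cancel₀ _ hc]
    linarith [Int.lt_floor_add_one (a + t * c)]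
  · refine ⟨(⌈a + t * c⌉ - (a + t * c)) / c, div_nonneg (sub_nonneg.2 (Int.le_ceil _)) h.le,
      ?_, ⌈a + t * c⌉, by field_simp; ring⟩
    rw [abs_of_pos h, div_mul_cancel₀ _ hc]
    linarith [Int.ceil_lt_add_one (a + t * c)]

theorem step (x e : ℝ × ℝ) (h1 : |e.1| ≤ 1) (h2 : |e.2| ≤ 1) (k : ℕ) (t : ℝ) :
    ∃ t', t ≤ t' ∧ t' + dl (k + 1) ≤ t + dl k ∧ (1 / 2 ≤ |4 ^ k * e.1 + e.2| →
      ∀ s, t' ≤ s → s ≤ t' + dl (k + 1) → x + s • e ∈ C k) := by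
  by_cases hg : 1 / 2 ≤ |4 ^ k * e.1 + e.2|
  swap
  · exact ⟨t, le_rfl, by linarith [dl_anti k.le_succ], fun h => absurd h hg⟩
  have hM := M_pos k
  have hc : |ph k e| = M k * |4 ^ k * e.1 + e.2| := by rw [ph, abs_mul, abs_of_pos hM]
  have hc0 : ph k e ≠ 0 := by
    rw [← abs_pos, hc]; exact mul_pos hM (by linarith)
  obtain ⟨u, hu0, hu1, n, hn⟩ := hit (ph k x) (ph k e) t hc0
  have hd : dl k * M k = 4 := div_mul_cancel₀ _ hM.ne'
  have hu : u ≤ dl k / 2 := by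
    rw [hc] at hu1
    have : u * M k ≤ 2 := by nlinarith [mul_nonneg hu0 hM.le]
    nlinarith
  refine ⟨t + u, by linarith, by linarith [dl_half k], fun _ s hs1 hs2 => ?_⟩
  have e1 : π * ph k (x + s • e) = π * ((s - (t + u)) * ph k e) + n * π := by
    rw [← hn]; simp only [ph, Prod.fst_add, Prod.snd_add, Prod.smul_fst, Prod.smul_snd, smul_eq_mul]
    ring
  show |sin (π * ph k (x + s • e))| ≤ _
  rw [e1, sin_add_int_mul_pi, abs_mul, abs_neg_one_zpow, one_mul]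
  refine abs_sin_le_abs.trans ?_
  rw [abs_mul, abs_mul, abs_of_pos pi_pos, abs_of_nonneg (by linarith : 0 ≤ s - (t + u)), hc]
  have h4 : (1 : ℝ) ≤ 4 ^ k := one_le_pow₀ (by norm_num)
  have h5 : |4 ^ k * e.1 + e.2| ≤ 2 * 4 ^ k := by
    refine (abs_add_le _ _).trans ?_
    rw [abs_mul, abs_of_pos (by positivity : (0 : ℝ) < 4 ^ k)]
    nlinarith
  have h6 : dl (k + 1) * (M k * (2 * 4 ^ k)) ≤ (1 / 2) ^ k := by
    have h8 : (8 : ℝ) ^ (k + 1) ≤ 9 ^ (k + 1) := pow_le_pow_left₀ (by norm_num) (by norm_num) _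
    have h9 : (8 : ℝ) ^ (k + 1) = 8 * 4 ^ k * 2 ^ k := by
      rw [pow_succ, mul_assoc, ← mul_pow]; norm_num; ring
    rw [dl_succ, div_mul_eq_mul_div, ← mul_assoc, hd, one_div_pow,
      div_le_div_iff₀ (by positivity) (by positivity)]
    linarith
  refine mul_le_mul pi_le_four (le_trans ?_ h6) (mul_nonneg (by linarith) (by positivity)) (by norm_num)
  exact mul_le_mul (by linarith) (mul_le_mul_of_nonneg_left h5 hM.le) (by positivity) (dl_pos _).le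

theorem nested (x e : ℝ × ℝ) (h1 : |e.1| ≤ 1) (h2 : |e.2| ≤ 1) (j : ℕ) :
    ∃ s, 0 ≤ s ∧ s ≤ dl j ∧ ∀ k, j ≤ k → 1 / 2 ≤ |4 ^ k * e.1 + e.2| → x + s • e ∈ C k := by
  choose f hf1 hf2 hf3 using step x e h1 h2
  let T : ℕ → ℝ := fun n => Nat.rec 0 (fun n t => f (j + n) t) n
  have hT : ∀ n, T (n + 1) = f (j + n) (T n) := fun _ => rfl
  have m1 : Monotone T := monotone_nat_of_le_succ fun n => hf1 _ _
  have m2 : Antitone fun n => T n + dl (j + n) := antitone_nat_of_succ_le fun n => hf2 _ _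
  have hb : ∀ m n, T m ≤ T n + dl (j + n) := by
    intro m n
    have a1 := m1 (le_max_left m n)
    have a2 := m2 (le_max_right m n)
    have a3 := dl_pos (j + max m n)
    simp only at a2
    linarith
  have bdd : BddAbove (range T) := ⟨_, forall_mem_range.2 fun m => hb m 0⟩
  refine ⟨⨆ n, T n, le_ciSup bdd 0, ?_, fun k hk hg => ?_⟩
  · simpa [T] using ciSup_le fun m => hb m 0
  · obtain ⟨n, rfl⟩ := Nat.exists_eq_add_of_le hk
    exact hf3 _ (T n) hg _ (le_ciSup bdd (n + 1)) (ciSup_le fun m => hb m (n + 1))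

theorem two (e : ℝ × ℝ) (he : ‖e‖ = 1) {j k : ℕ} (h : j < k) :
    1 / 2 ≤ |4 ^ j * e.1 + e.2| ∨ 1 / 2 ≤ |4 ^ k * e.1 + e.2| := by
  by_contra hc
  push Not at hc
  obtain ⟨a, b⟩ := hc
  have h4 : (1 : ℝ) ≤ 4 ^ j := one_le_pow₀ (by norm_num)
  have h5 : (4 : ℝ) ^ j * 4 ≤ 4 ^ k := by
    rw [← pow_succ]; exact pow_le_pow_right₀ (by norm_num) h
  rw [abs_lt] at a b
  have : ‖e‖ < 1 := by
    rw [Prod.norm_def, max_lt_iff, Real.norm_eq_abs, Real.norm_eq_abs, abs_lt, abs_lt]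
    rcases le_total 0 e.1 with h0 | h0
    · have := mul_le_mul_of_nonneg_right h5 h0
      have := mul_le_mul_of_nonneg_right h4 h0
      refine ⟨⟨?_, ?_⟩, ?_, ?_⟩ <;> nlinarith
    · have := mul_le_mul_of_nonpos_right h5 h0
      have := mul_le_mul_of_nonpos_right h4 h0
      refine ⟨⟨?_, ?_⟩, ?_, ?_⟩ <;> nlinarith
  linarith

theorem room {a b c d δ : ℝ} (hδ : δ ≤ 1 / 2) (ha : δ < a) (ha' : a < 1 - δ) (b0 : 0 ≤ b) (b1 : b ≤ 1)
    (hc : |c| ≤ 1) (hd : |d| ≤ 1) : ∃ σ : ℝ, |σ| = 1 ∧ ∀ s, 0 ≤ s → s ≤ δ →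
      (0 ≤ a + s * (σ * c) ∧ a + s * (σ * c) ≤ 1) ∧ 0 ≤ b + s * (σ * d) ∧ b + s * (σ * d) ≤ 1 := by
  rw [abs_le] at hc hd
  rcases le_total b (1 / 2) with hb | hb <;> rcases le_total 0 d with h | h
  · exact ⟨1, by simp, fun s s0 s1 => ⟨⟨by nlinarith, by nlinarith⟩, by nlinarith, by nlinarith⟩⟩
  · exact ⟨-1, by simp, fun s s0 s1 => ⟨⟨by nlinarith, by nlinarith⟩, by nlinarith, by nlinarith⟩⟩
  · exact ⟨-1, by simp, fun s s0 s1 => ⟨⟨by nlinarith, by nlinarith⟩, by nlinarith, by nlinarith⟩⟩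
  · exact ⟨1, by simp, fun s s0 s1 => ⟨⟨by nlinarith, by nlinarith⟩, by nlinarith, by nlinarith⟩⟩

theorem meets (p d : ℝ × ℝ) (hd : ‖d‖ = 1) (hp : p ∈ Icc (0 : ℝ) 1 ×ˢ Icc (0 : ℝ) 1) :
    ∃ t : ℝ, p + t • d ∈ K := by
  classical
  have d1 : |d.1| ≤ 1 := hd ▸ norm_fst_le d
  have d2 : |d.2| ≤ 1 := hd ▸ norm_snd_le d
  by_cases hA : ∃ j, ∃ t : ℝ, p + t • d ∈ Icc (0 : ℝ) 1 ×ˢ Icc (0 : ℝ) 1 ∧ p + t • d ∉ N j
  swap
  · push Not at hA
    refine ⟨0, by simpa using hp, ?_⟩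
    simp only [mem_iInter]
    exact fun j k _ => Or.inr (hA j 0 (by simpa using hp))
  obtain ⟨t, ⟨⟨a0, a1⟩, b0, b1⟩, hN⟩ := Nat.find_spec hA
  have hmin := fun j (hj : j < Nat.find hA) => Nat.find_min hA hj
  set j0 := Nat.find hA
  set x := p + t • d with hx
  have hδ : dl j0 ≤ 1 / 2 := (dl_anti (Nat.zero_le _)).trans (by simpa using dl_le 0)
  obtain ⟨σ, hσ, hr⟩ : ∃ σ : ℝ, |σ| = 1 ∧ ∀ s, 0 ≤ s → s ≤ dl j0 →
      x + s • σ • d ∈ Icc (0 : ℝ) 1 ×ˢ Icc (0 : ℝ) 1 := by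
    simp only [N, mem_inter_iff, mem_union, mem_setOf_eq, not_and_or, not_or, not_le] at hN
    rcases hN with ⟨h, h'⟩ | ⟨h, h'⟩
    · obtain ⟨σ, hσ, hr⟩ := room hδ h h' b0 b1 d1 d2
      exact ⟨σ, hσ, fun s s0 s1 => hr s s0 s1⟩
    · obtain ⟨σ, hσ, hr⟩ := room hδ h h' a0 a1 d2 d1
      exact ⟨σ, hσ, fun s s0 s1 => ⟨(hr s s0 s1).2, (hr s s0 s1).1⟩⟩
  have he : ‖σ • d‖ = 1 := by rw [norm_smul, hd, Real.norm_eq_abs, hσ, one_mul]
  obtain ⟨s, s0, s1, hs⟩ := nested x (σ • d) (he ▸ norm_fst_le (σ • d)) (he ▸ norm_snd_le (σ • d)) j0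
  have e : p + (t + s * σ) • d = x + s • σ • d := by rw [hx, add_smul, mul_smul, add_assoc]
  refine ⟨t + s * σ, e ▸ hr s s0 s1, ?_⟩
  simp only [mem_iInter]
  intro j k hjk
  rcases lt_or_ge j j0 with hj | hj
  · refine Or.inr ?_
    by_contra hc
    exact hmin j hj ⟨t + s * σ, e ▸ hr s s0 s1, hc⟩
  · rw [e]
    exact Or.inl ((two _ he hjk).imp (hs j hj) (hs k (hj.trans hjk.le)))

theorem result : ∃ K : Set (ℝ × ℝ), IsCompact K ∧ K ⊆ Icc 0 1 ×ˢ Icc 0 1 ∧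
    (∀ p d : ℝ × ℝ, d ≠ 0 → (∃ t : ℝ, p + t • d ∈ Icc (0 : ℝ) 1 ×ˢ Icc (0 : ℝ) 1) →
      ∃ t : ℝ, p + t • d ∈ K) ∧
    ∀ l : ℕ, 1 ≤ l →
      IsNowhereDense {z : ℝ × ℝ | ∃ x : Fin l → ℝ × ℝ, (∀ i, x i ∈ K) ∧ z = ∑ i, x i} := by
  refine ⟨K, compact_K, inter_subset_left, ?_, fun l _ => ?_⟩
  · rintro p d hd ⟨t, ht⟩
    obtain ⟨s, hs⟩ := meets (p + t • d) (‖d‖⁻¹ • d) (norm_smul_inv_norm hd) ht
    exact ⟨t + s * ‖d‖⁻¹, by rwa [add_smul, mul_smul, ← add_assoc]⟩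
  · have e : {z : ℝ × ℝ | ∃ x : Fin l → ℝ × ℝ, (∀ i, x i ∈ K) ∧ z = ∑ i, x i} =
        (fun x : Fin l → ℝ × ℝ => ∑ i, x i) '' (univ.pi fun _ => K) := by
      ext z
      simp only [mem_setOf_eq, mem_image, mem_univ_pi, eq_comm]
    have hc : IsCompact ((fun x : Fin l → ℝ × ℝ => ∑ i, x i) '' (univ.pi fun _ => K)) :=
      (isCompact_univ_pi fun _ => compact_K).image (by fun_prop)
    rw [e, hc.isClosed.isNowhereDense_iff, ← subset_empty_iff, ← H_int]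
    refine interior_mono ?_
    rintro _ ⟨x, hx, rfl⟩
    exact H.sum_mem fun i _ => K_sub (hx i (mem_univ i))

end Pool.Agent.Results.MP_ca1982_an.Yes
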